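import Pool.Agent.Helper35.PI2.St

/-!
Module FN of project PI2: if the hatted second fundamental form vanishes the flow is of
codimension one.
-/

namespace Helper94.PI2

open Helper35.PI Helper35.PI2

open scoped ContDiff Manifold Topology ENNReal BigOperators
open MeasureTheory Set Filter

theorem hFN (hSMP : StSMP) (hPL : StPL) (hFL : StFL) (hPO : StPO) : StFN := by
  intro n N hn hN M _ _ _ _ _ F hF c hc0 hc3 hc1 hpin hZ
  obtain ⟨ε, hε, hpin⟩ := hpin
  have hn1 : 1 ≤ n := by omega
  have hS := hSMP n N hn1 M F hF c ε hε hc0 hc3 hpin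
  by_cases hall : ∀ (p : M) (t : ℝ), t < 0 → HH (n := n) F p t = 0
  · refine hFL n N hn1 hN M F hF ?_
    intro p t ht
    have h1 := hpin p t ht
    have h2 := (hPO n N hn1 M F hF p t ht).1
    rw [hall p t ht, norm_zero] at h1
    apply le_antisymm _ h2
    have e : (c - ε) * (0:ℝ) ^ 2 = 0 := by ring
    rw [e] at h1
    exact h1
  · push Not at hall
    obtain ⟨p₁, t₁, ht₁, hne⟩ := hall
    set Z₀ : Set ℝ := {t | t < 0 ∧ ∃ p : M, HH (n := n) F p t = 0} with hZ₀
    have hZ₀b : ∀ t ∈ Z₀, t ≤ t₁ := by
      rintro t ⟨ht, p, hp⟩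
      by_contra hlt
      push Not at hlt
      exact hne (hS p t ht hp p₁ t₁ hlt)
    -- the planarity on an interval
    have hplan : ∀ a : ℝ, a < 0 → (∀ t ∈ Z₀, t ≤ a) → ∃ W : AffineSubspace ℝ (EE N),
        Module.finrank ℝ W.direction = n + 1 ∧ ∀ t ∈ Ioo a 0, ∀ p : M, F p t ∈ W := by
      intro a ha hZa
      refine hPL n N hn1 M F hF (Ioo a 0) isOpen_Ioo isPreconnected_Ioo (nonempty_Ioo.2 ha)
        (fun t ht => ht.2) ?_
      intro t ht p
      have hH : HH (n := n) F p t ≠ 0 := by
        intro h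
        have := hZa t ⟨ht.2, p, h⟩
        exact absurd ht.1 (not_lt.2 this)
      refine ⟨hH, hZ p t ht.2, ?_⟩
      have h1 := hpin p t ht.2
      have h2 : 0 < ‖HH (n := n) F p t‖ ^ 2 := by positivity
      nlinarith
    have hcont : ∀ (p : M) (t : ℝ), t < 0 → ContinuousAt (fun τ => F p τ) t := by
      intro p t ht
      exact (hF.flow p t ht).continuousAt
    by_cases hemp : Z₀ = ∅
    · -- `H` never vanishes
      have hPLall := hPL n N hn1 M F hF (Iio 0) isOpen_Iio isPreconnected_Iio ⟨-1, by simp⟩
        (fun t ht => ht) (by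
          intro t ht p
          have hH : HH (n := n) F p t ≠ 0 := by
            intro h
            have : t ∈ Z₀ := ⟨ht, p, h⟩
            rw [hemp] at this
            exact this
          refine ⟨hH, hZ p t ht, ?_⟩
          have h1 := hpin p t ht
          have h2 : 0 < ‖HH (n := n) F p t‖ ^ 2 := by positivity
          nlinarith)
      obtain ⟨W, hW, hFW⟩ := hPLall
      exact ⟨W, hW, fun p t ht => hFW t ht p⟩
    · have hnem : Z₀.Nonempty := Set.nonempty_iff_ne_empty.2 hemp
      have hbdd : BddAbove Z₀ := ⟨t₁, hZ₀b⟩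
      set a : ℝ := sSup Z₀ with ha
      have hat : a ≤ t₁ := csSup_le hnem hZ₀b
      have ha0 : a < 0 := lt_of_le_of_lt hat ht₁
      obtain ⟨W, hW, hFW⟩ := hplan a ha0 (fun t ht => le_csSup hbdd ht)
      refine ⟨W, hW, ?_⟩
      have hcl : IsClosed (W : Set (EE N)) := AffineSubspace.closed_of_finiteDimensional W
      have hFa : ∀ p : M, F p a ∈ W := by
        intro p
        have h1 : Tendsto (fun τ => F p τ) (𝓝[>] a) (𝓝 (F p a)) :=
          (hcont p a ha0).tendsto.mono_left nhdsWithin_le_nhds
        refine hcl.mem_of_tendsto h1 ?_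
        filter_upwards [Ioo_mem_nhdsGT ha0] with τ hτ
        exact hFW τ hτ p
      intro p t ht
      rcases lt_trichotomy t a with hlt | heq | hgt
      · have hH0 : ∀ x : ℝ, x < a → HH (n := n) F p x = 0 := by
          intro x hx
          obtain ⟨t', ht', hxt'⟩ := exists_lt_of_lt_csSup hnem hx
          obtain ⟨ht'0, p', hp'⟩ := ht'
          exact hS p' t' ht'0 hp' p x hxt'
        have h1 : ContinuousOn (fun τ => F p τ) (Icc t a) := by
          intro x hx
          exact (hcont p x (lt_of_le_of_lt hx.2 ha0)).continuousWithinAt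
        have h2 : ∀ x ∈ Ico t a, HasDerivWithinAt (fun τ => F p τ) 0 (Ici x) x := by
          intro x hx
          have h3 := hF.flow p x (lt_trans hx.2 ha0)
          rw [hH0 x hx.2] at h3
          exact h3.hasDerivWithinAt
        have h3 := constant_of_has_deriv_right_zero h1 h2 a ⟨hlt.le, le_rfl⟩
        have h4 : F p a = F p t := h3
        rw [← h4]
        exact hFa p
      · rw [heq]
        exact hFa p
      · exact hFW t ⟨hgt, ht⟩ p

end Helper94.PI2
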